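import Pool.Agent.MJX.Marg
import Pool.Agent.MJX.Hat

/-!
The Matching-Jack conjecture holds after summation over the partitions with a marked set of
parts of given cardinality and given sum.
-/

namespace Pool.Agent.Results.MP_1d7ca8_co.Marginals

open Pool.Agent.MJR Pool.Agent.MJX

/-- Let `J` be the family of integral Jack functions of degree `n` over `ℚ(al)` (`J l r` is the
coefficient of `p_r` in `J_l`), let `nab` be the linear map with `J_l ↦ J_l(p) J_l(q)`
(elements of degree `n` are given by their coefficients in the power sums), and let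
`c v = nab (Pi.single p 1) m v` be the coefficient of `p_m(p) p_v(q)` in the image of `p_p`.
For all `l` and `t` the sum over `v` of `c v` times the number of ways to choose `l` of the parts
of `v` with sum `t` is a polynomial in `al - 1` with coefficients in `ℕ`. -/
theorem result (n : ℕ) (J : n.Partition → n.Partition → RatFunc ℚ)
    (hJ : IsJack RatFunc.X n J)
    (nab : (n.Partition → RatFunc ℚ) →ₗ[RatFunc ℚ] (n.Partition → n.Partition → RatFunc ℚ))
    (hnab : ∀ l, nab (J l) = fun m v => J l m * J l v)
    (p m : n.Partition) (l t : ℕ) :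
    ∃ P : Polynomial ℕ,
      ∑ v : n.Partition,
          (((v.parts.powersetCard l).filter fun a => a.sum = t).card : RatFunc ℚ) *
            nab (Pi.single p 1) m v =
        P.eval₂ (Nat.castRingHom (RatFunc ℚ)) ((RatFunc.X : RatFunc ℚ) - 1) := by
  have hk : (RatFunc.X : RatFunc ℚ) * 1 ^ 2 = (RatFunc.X - 1) * 1 + 1 := by ring
  have hR := rSt (K := RatFunc ℚ) RatFunc.X hk
  obtain ⟨T, hT, hTp⟩ := forget (K := RatFunc ℚ) RatFunc.X (RatFunc.X * 1)
  have hone : (RatFunc.X * 1 : RatFunc ℚ) ∈ Nb (RatFunc.X : RatFunc ℚ) := by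
    rw [mul_one]
    exact al_mem_Nb _
  have h := marg hJ (fun p m v => nab (Pi.single p 1) m v) (fun l m v => by
    have h2 : J l = ∑ p, J l p • (Pi.single p (1 : RatFunc ℚ) : n.Partition → RatFunc ℚ) := by
      funext q
      rw [Finset.sum_apply, Finset.sum_eq_single q]
      · simp
      · intro b _ hb
        simp [Ne.symm hb]
      · intro h'
        exact absurd (Finset.mem_univ _) h'
    have h3 := hnab l
    rw [h2, map_sum] at h3
    have h4 := congrFun (congrFun h3 m) v
    rw [← h2] at h4
    rw [← h4]
    simp [Finset.sum_apply])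
    ⟨T, HatM.hat (RatFunc.X * 1) 1, hT, hTp hone, hatSt hR (zSt _ hk hR) hT⟩ p m l t
  obtain ⟨P, hP⟩ := h
  exact ⟨P, hP.symm⟩

end Pool.Agent.Results.MP_1d7ca8_co.Marginals
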