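import Pool.Agent.MJF.FiveHat

/-!
The Matching-Jack conjecture for all triples of partitions of `n` whose second or third member
has at least `n - 5` parts, or a part of size at least `n - 2`, or is one of the partitions
`(7)`, `(8)`, `(6, 2)`, `(7, 2)`, `(4, 2, 2, 2)` completed by ones; and nonnegativity if the
first member has at least `n - 5` parts.
-/

namespace Pool.Agent.Results.MP_1d7ca8_co.RankFive

open Pool.Agent.MJR Pool.Agent.MJF Pool.Agent.MJT

/-- Let `J` be the family of integral Jack functions of degree `n` over `ℚ(al)` (`J l r` is the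
coefficient of `p_r` in `J_l`), let `nab` be the linear map with `J_l ↦ J_l(p) J_l(q)`
(elements of degree `n` are given by their coefficients in the power sums), and let
`c = nab (Pi.single p 1) m v` be the coefficient of `p_m(p) p_v(q)` in the image of `p_p`.
If `m` or `v` is good, or `p` has at least `n - 5` parts, then `c` is a polynomial in `al - 1`
with nonnegative rational coefficients; they are integers if `m` or `v` is good, or `p` has at
least `n - 2` parts.  Good: at least `n - 5` parts, or a part of size at least `n - 2`, or the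
parts different from one are `(7)`, `(8)`, `(6, 2)`, `(7, 2)` or `(4, 2, 2, 2)`. -/
theorem result (n : ℕ) (J : n.Partition → n.Partition → RatFunc ℚ)
    (hJ : IsJack RatFunc.X n J)
    (nab : (n.Partition → RatFunc ℚ) →ₗ[RatFunc ℚ] (n.Partition → n.Partition → RatFunc ℚ))
    (hnab : ∀ l, nab (J l) = fun m v => J l m * J l v)
    (p m v : n.Partition) (h : Good m ∨ Good v ∨ n ≤ p.parts.card + 5) :
    ∃ P : Polynomial ℚ, (∀ i, 0 ≤ P.coeff i) ∧
      ((Good m ∨ Good v ∨ n ≤ p.parts.card + 2) → ∀ i, ∃ k : ℕ, P.coeff i = k) ∧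
      nab (Pi.single p 1) m v =
        P.eval₂ (algebraMap ℚ (RatFunc ℚ)) ((RatFunc.X : RatFunc ℚ) - 1) := by
  have hc : ∀ l m v, ∑ p, J l p * (fun p m v => nab (Pi.single p 1) m v) p m v =
      J l m * J l v := by
    intro l m v
    have h2 : J l = ∑ p, J l p • (Pi.single p (1 : RatFunc ℚ) : n.Partition → RatFunc ℚ) := by
      funext q
      rw [Finset.sum_apply, Finset.sum_eq_single q]
      · simp
      · intro b _ hb
        simp [Ne.symm hb]
      · intro h'
        exact absurd (Finset.mem_univ _) h'
    have h3 := hnab l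
    rw [h2, map_sum] at h3
    have h4 := congrFun (congrFun h3 m) v
    rw [← h2] at h4
    rw [← h4]
    simp [Finset.sum_apply]
  have hmap : ∀ P : Polynomial ℕ, (P.map (Nat.castRingHom ℚ)).eval₂ (algebraMap ℚ (RatFunc ℚ))
      ((RatFunc.X : RatFunc ℚ) - 1) =
      P.eval₂ (Nat.castRingHom (RatFunc ℚ)) ((RatFunc.X : RatFunc ℚ) - 1) := by
    intro P
    rw [Polynomial.eval₂_map]
    congr 1
    exact RingHom.ext fun k => by simp
  by_cases h0 : Good m ∨ Good v ∨ n ≤ p.parts.card + 2
  · have h1 : nab (Pi.single p 1) m v ∈ Nb (RatFunc.X : RatFunc ℚ) := by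
      rcases h0 with h | h | h
      · exact five_lower hJ (fun p m v => nab (Pi.single p 1) m v) hc p m v (Or.inl h)
      · exact five_lower hJ (fun p m v => nab (Pi.single p 1) m v) hc p m v (Or.inr h)
      · exact fin_c hJ (fun p m v => nab (Pi.single p 1) m v) hc p m v (Or.inl h)
    obtain ⟨P, hP⟩ := h1
    refine ⟨P.map (Nat.castRingHom ℚ), fun i => ?_, fun _ i => ⟨P.coeff i, ?_⟩, ?_⟩
    · rw [Polynomial.coeff_map]
      simp
    · rw [Polynomial.coeff_map]
      rfl
    · rw [hmap]
      exact hP.symm
  · have h5 : n ≤ p.parts.card + 5 := by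
      rcases h with h | h | h
      · exact absurd (Or.inl h) h0
      · exact absurd (Or.inr (Or.inl h)) h0
      · exact h
    obtain ⟨x, y, hx, ⟨P, hP⟩, he⟩ :=
      five_upper hJ (fun p m v => nab (Pi.single p 1) m v) hc p m v h5
    refine ⟨Polynomial.C x * P.map (Nat.castRingHom ℚ), fun i => ?_, fun h6 => absurd h6 h0, ?_⟩
    · rw [Polynomial.coeff_C_mul, Polynomial.coeff_map]
      exact mul_nonneg hx (by simp)
    · have he' : nab (Pi.single p 1) m v = algebraMap ℚ (RatFunc ℚ) x * y := he
      rw [he', ← hP, Polynomial.eval₂_mul, Polynomial.eval₂_C, hmap, Polynomial.coe_eval₂RingHom]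

end Pool.Agent.Results.MP_1d7ca8_co.RankFive
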