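import Pool.Agent.MJT.RhoEnd

/-!
The Matching-Jack conjecture holds on average over the third partition, with a marked
sub-multiset of total size at most three.
-/

namespace Pool.Agent.Results.MP_1d7ca8_co.SubThree

open Pool.Agent.MJR Pool.Agent.MJT

/-- Let `J` be the family of integral Jack functions of degree `n` over `ℚ(al)` (`J l r` is the
coefficient of `p_r` in `J_l`), let `nab` be the linear map with `J_l ↦ J_l(p) J_l(q)`
(elements of degree `n` are given by their coefficients in the power sums), and let
`c p m v = nab (Pi.single p 1) m v` be the coefficient of `p_m(p) p_v(q)` in the image of `p_p`.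
Let `r` be a multiset of positive integers with sum at most three.  For every `k`, the sum of
`c p m v` over all `v` with `k` parts, each `v` weighted with the number of ways to choose
parts of `v` with sizes `r`, is a polynomial in `al - 1` with coefficients in `ℕ`. -/
theorem result (n : ℕ) (J : n.Partition → n.Partition → RatFunc ℚ)
    (hJ : IsJack RatFunc.X n J)
    (nab : (n.Partition → RatFunc ℚ) →ₗ[RatFunc ℚ] (n.Partition → n.Partition → RatFunc ℚ))
    (hnab : ∀ l, nab (J l) = fun m v => J l m * J l v)
    (p m : n.Partition) (k : ℕ) (r : Multiset ℕ) (hr0 : ∀ i ∈ r, 0 < i) (hr : r.sum ≤ 3) :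
    ∃ P : Polynomial ℕ,
      ∑ v : n.Partition with v.parts.card = k,
        ((∏ i ∈ r.toFinset, (v.parts.count i).choose (r.count i) : ℕ) : RatFunc ℚ) *
          nab (Pi.single p 1) m v =
        P.eval₂ (Nat.castRingHom (RatFunc ℚ)) ((RatFunc.X : RatFunc ℚ) - 1) := by
  classical
  have hc : ∀ l m v, ∑ p, J l p * nab (Pi.single p 1) m v = J l m * J l v := by
    intro l m v
    have h2 : J l = ∑ p, J l p • (Pi.single p (1 : RatFunc ℚ) : n.Partition → RatFunc ℚ) := by
      funext q
      rw [Finset.sum_apply, Finset.sum_eq_single q]
      · simp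
      · intro b _ hb
        simp [Ne.symm hb]
      · intro h'
        exact absurd (Finset.mem_univ _) h'
    have h3 := hnab l
    rw [h2, map_sum] at h3
    have h4 := congrFun (congrFun h3 m) v
    rw [← h2] at h4
    rw [← h4]
    simp [Finset.sum_apply]
  have h0 : 0 ∉ r := fun h => absurd (hr0 0 h) (lt_irrefl 0)
  have hmem : ∑ v : n.Partition with v.parts.card = k,
      ((∏ i ∈ r.toFinset, (v.parts.count i).choose (r.count i) : ℕ) : RatFunc ℚ) *
        nab (Pi.single p 1) m v ∈ Nb (RatFunc.X : RatFunc ℚ) := by
    by_cases hk : r.card ≤ k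
    · obtain ⟨l, rfl⟩ := Nat.exists_eq_add_of_le' hk
      exact rho_end touch hJ (fun p m v => nab (Pi.single p 1) m v) hc p m l r h0 hr
    · have hz : ∑ v : n.Partition with v.parts.card = k,
          ((∏ i ∈ r.toFinset, (v.parts.count i).choose (r.count i) : ℕ) : RatFunc ℚ) *
            nab (Pi.single p 1) m v = 0 := by
        refine Finset.sum_eq_zero fun v hv => ?_
        rw [Finset.mem_filter] at hv
        have h5 : ∏ i ∈ r.toFinset, (v.parts.count i).choose (r.count i) = 0 := by
          by_contra hne
          apply hk
          rw [← hv.2]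
          refine Multiset.card_le_card (Multiset.le_iff_count.mpr fun i => ?_)
          by_cases hi : i ∈ r
          · by_contra hlt
            rw [not_le] at hlt
            exact hne (Finset.prod_eq_zero (Multiset.mem_toFinset.mpr hi)
              (Nat.choose_eq_zero_of_lt hlt))
          · rw [Multiset.count_eq_zero_of_notMem hi]
            exact Nat.zero_le _
        rw [h5, Nat.cast_zero, zero_mul]
      rw [hz]
      exact zero_mem _
  obtain ⟨P, hP⟩ := hmem
  exact ⟨P, hP.symm⟩

end Pool.Agent.Results.MP_1d7ca8_co.SubThree
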