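import Pool.Agent.MJD.Fin

/-!
The two leading coefficients of the Goulden-Jackson coefficients `c` are nonnegative, and all
coefficients are nonnegative if the degree bound is at most three.
-/

namespace Pool.Agent.Results.MP_1d7ca8_co.TopTwo

open Pool.Agent.MJR Pool.Agent.MJD

/-- Let `J n` be the family of integral Jack functions of degree `n` over `ℚ(al)` (`J n l r` is
the coefficient of `p_r` in `J_l`), let `nab` be the linear map with `J_l ↦ J_l(p) J_l(q)` in
degree `n` (elements are given by their coefficients in the power sums), and let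
`c = nab (Pi.single p 1) m v` be the coefficient of `p_m(p) p_v(q)` in the image of `p_p`.
Then `c` is a polynomial `P` in `b = al - 1` of degree at most
`d = n + len p - len m - len v` (`P = 0` if `d < 0`), where `len` is the number of parts, whose
coefficients of `b^d` and `b^(d-1)` are nonnegative.  If this number is at most three, for the
given or for another order of the three partitions `p`, `m`, `v`, then all coefficients of `P`
are nonnegative. -/
theorem result (J : (n : ℕ) → n.Partition → n.Partition → RatFunc ℚ)
    (hJ : ∀ n, IsJack RatFunc.X n (J n)) (n : ℕ)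
    (nab : (n.Partition → RatFunc ℚ) →ₗ[RatFunc ℚ] (n.Partition → n.Partition → RatFunc ℚ))
    (hnab : ∀ l, nab (J n l) = fun m v => J n l m * J n l v) (p m v : n.Partition) :
    ∃ P : Polynomial ℚ,
      nab (Pi.single p 1) m v =
        P.eval₂ (algebraMap ℚ (RatFunc ℚ)) ((RatFunc.X : RatFunc ℚ) - 1) ∧
      (∀ i, n + p.parts.card < i + m.parts.card + v.parts.card → P.coeff i = 0) ∧
      (∀ i, n + p.parts.card ≤ i + m.parts.card + v.parts.card + 1 → 0 ≤ P.coeff i) ∧
      ((n + p.parts.card ≤ m.parts.card + v.parts.card + 3 ∨
        n + m.parts.card ≤ p.parts.card + v.parts.card + 3 ∨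
        n + v.parts.card ≤ p.parts.card + m.parts.card + 3) → ∀ i, 0 ≤ P.coeff i) := by
  have hc : ∀ l m v, ∑ p, J n l p * (fun p m v => nab (Pi.single p 1) m v) p m v =
      J n l m * J n l v := by
    intro l m v
    have h2 : J n l =
        ∑ p, J n l p • (Pi.single p (1 : RatFunc ℚ) : n.Partition → RatFunc ℚ) := by
      funext q
      rw [Finset.sum_apply, Finset.sum_eq_single q]
      · simp
      · intro b _ hb
        simp [Ne.symm hb]
      · intro h'
        exact absurd (Finset.mem_univ _) h'
    have h3 := hnab l
    rw [h2, map_sum] at h3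
    have h4 := congrFun (congrFun h3 m) v
    rw [← h2] at h4
    rw [← h4]
    simp [Finset.sum_apply]
  obtain ⟨P, h1, h2, h3, h4⟩ := FinM.fin' hJ (fun p m v => nab (Pi.single p 1) m v) hc p m v
  exact ⟨P, h1.symm, h2, h3, h4⟩

end Pool.Agent.Results.MP_1d7ca8_co.TopTwo
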